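import Pool.Agent.W598.IA.Stm

set_option autoImplicit false

namespace Pool.Agent.W372.IA

open Pool.Agent.W598.IA

/-- one letter -/
def G {κ M n : ℕ} (a : Fin κ × Bool → Automaton M n) (i : Fin κ × Bool)
    (q : ℕ × List (List (ℕ × ℕ))) : ℕ × List (List (ℕ × ℕ)) :=
  (M * q.1, (a i).rows.flatMap fun ri => q.2.map fun row => row.map fun p =>
    (p.1 + q.1 * (ri.getD p.2 (0, 0)).1, (ri.getD p.2 (0, 0)).2))

theorem primrec_G {κ M n : ℕ} (a : Fin κ × Bool → Automaton M n) : Primrec₂ (G a) := by
  have h1 : Primrec fun i : Fin κ × Bool => (a i).rows := Primrec.dom_finite _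
  have hrow : Primrec₂ fun (z : ((Fin κ × Bool) × (ℕ × List (List (ℕ × ℕ)))) × List (ℕ × ℕ))
      (row : List (ℕ × ℕ)) => row.map fun p : ℕ × ℕ =>
        (p.1 + z.1.2.1 * (z.2.getD p.2 (0, 0)).1, (z.2.getD p.2 (0, 0)).2) := by
    refine Primrec.list_map Primrec.snd ?_
    have hg : Primrec fun (w : ((((Fin κ × Bool) × (ℕ × List (List (ℕ × ℕ)))) × List (ℕ × ℕ)) ×
        List (ℕ × ℕ)) × (ℕ × ℕ)) => w.1.1.2.getD w.2.2 (0, 0) :=
      (Primrec.list_getD (0, 0)).comp (Primrec.snd.comp (Primrec.fst.comp Primrec.fst))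
        (Primrec.snd.comp Primrec.snd)
    have hq : Primrec fun (w : ((((Fin κ × Bool) × (ℕ × List (List (ℕ × ℕ)))) × List (ℕ × ℕ)) ×
        List (ℕ × ℕ)) × (ℕ × ℕ)) => w.1.1.1.2.1 :=
      Primrec.fst.comp (Primrec.snd.comp (Primrec.fst.comp (Primrec.fst.comp Primrec.fst)))
    exact Primrec.pair
      (Primrec.nat_add.comp (Primrec.fst.comp Primrec.snd)
        (Primrec.nat_mul.comp hq (Primrec.fst.comp hg)))
      (Primrec.snd.comp hg)
  refine Primrec.pair (Primrec.nat_mul.comp (Primrec.const M)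
    (Primrec.fst.comp Primrec.snd)) ?_
  refine Primrec.list_flatMap (h1.comp Primrec.fst) ?_
  refine Primrec.list_map (Primrec.snd.comp (Primrec.snd.comp Primrec.fst)) ?_
  exact hrow

theorem G_eq {κ M n : ℕ} (a : Fin κ × Bool → Automaton M n) (i : Fin κ × Bool)
    (w : List (Fin κ × Bool)) :
    (cstates M (i :: w), (comp a (i :: w)).rows) = G a i (cstates M w, (comp a w).rows) := by
  have h : (comp a (i :: w)).rows = (a i).rows.flatMap fun ri => (comp a w).rows.map fun row =>
      row.map fun p => (p.1 + cstates M w * (ri.getD p.2 (0, 0)).1,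
        (ri.getD p.2 (0, 0)).2) := by
    change (List.ofFn fun s : Fin (M * cstates M w) => List.ofFn fun x : Fin n =>
      ((((comp a (i :: w)).next s x : Fin (M * cstates M w)) : ℕ),
        (((comp a (i :: w)).out s x : Fin n) : ℕ))) = _
    rw [List.ofFn_mul]
    unfold Automaton.rows
    rw [List.flatMap_def, List.map_ofFn]
    congr 1
    rw [List.ofFn_inj]
    funext s1
    rw [Function.comp_apply, List.map_ofFn]
    rw [List.ofFn_inj]
    funext s2
    rw [Function.comp_apply, List.map_ofFn]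
    rw [List.ofFn_inj]
    funext x
    have h1 : ∀ h0 : (s1 : ℕ) * cstates M w + s2 < M * cstates M w,
        (finProdFinEquiv.symm (⟨(s1 : ℕ) * cstates M w + s2, h0⟩ : Fin (M * cstates M w)) :
          Fin M × Fin (cstates M w)) = (s1, s2) := by
      intro h0
      rw [Equiv.symm_apply_eq]
      apply Fin.ext
      simp [finProdFinEquiv, mul_comm, add_comm]
    have h2 : ∀ (s : Fin M) (y : Fin n),
        (List.ofFn fun x : Fin n => (((a i).next s x : ℕ), ((a i).out s x : ℕ))).getD (y : ℕ) (0, 0) =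
          (((a i).next s y : ℕ), ((a i).out s y : ℕ)) := by
      intro s y
      rw [List.getD_eq_getElem _ _ (by simp)]
      simp
    simp only [Function.comp_apply, h2]
    simp only [comp, h1]
    simp [finProdFinEquiv]
  rw [h]
  rfl

theorem main : S_CODE := by
  intro κ M n a
  have h1 : ∀ w : List (Fin κ × Bool), (cstates M w, (comp a w).rows) =
      w.foldr (fun i q => G a i q) (1, [List.ofFn fun x : Fin n => (0, (x : ℕ))]) := by
    intro w
    induction w with
    | nil =>
      simp [cstates, comp, Automaton.rows]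
    | cons i w ih => rw [G_eq, ih]; rfl
  have h2 : Primrec fun w : List (Fin κ × Bool) =>
      w.foldr (fun i q => G a i q) (1, [List.ofFn fun x : Fin n => (0, (x : ℕ))]) := by
    have h3 : Primrec₂ fun (_ : List (Fin κ × Bool))
        (p : (Fin κ × Bool) × (ℕ × List (List (ℕ × ℕ)))) => G a p.1 p.2 :=
      ((primrec_G a).comp (Primrec.fst.comp Primrec.snd)
        (Primrec.snd.comp Primrec.snd)).to₂
    exact Primrec.list_foldr Primrec.id (Primrec.const _) h3
  exact (h2.of_eq fun w => (h1 w).symm).to_comp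

end Pool.Agent.W372.IA
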